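import Pool.Agent.H619R3.AVTheta

/-!
# MP_c52a38_ag, Q1: the statement is false

There is a complex abelian surface `X = ℂ² / Λ` and, for every bound `N`, an ample (even effective)
`ℚ`-divisor class `B` on `X` with `(B²) > 4 = g^g` and `(B²) > N`, such that for every effective
`ℚ`-divisor `D ≡ B` for which the cosupport `Z(D)` of the multiplier ideal is an abelian subvariety
`W / (Λ ∩ W)`, this abelian subvariety is positive dimensional, while `(X, B)` does not split.

`X = (E₁ × E₂) / ⟨(1/2, 1/2)⟩` with `E₁ = ℂ/(ℤ + ℤ i)` and `E₂ = ℂ/(ℤ + ℤ √2 i)`; its only elliptic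
curves through the origin are the images of `E₁` and `E₂`, and they meet in two points, so `X` is not
a product.  `B` is chosen with `B · E₁ = 1/2` and `(B²)` large.  If `D = c E₁ + D'` then `Z(D)` is
a union of translates of `E₁` by inversion of adjunction, since `D' · E₁ = 1/2 < 1`; so `Z(D)` is
never a point.
-/

open Pool.Agent.H619R3.AV

namespace Pool.Agent.Results.MP_c52a38_ag.NonSplitSurface

theorem result :
    ∃ b : Module.Basis (Fin (2 * 2)) ℝ (Fin 2 → ℂ), ∀ N : ℝ,
      ∃ E : (Fin 2 → ℂ) →ₗ[ℝ] (Fin 2 → ℂ) →ₗ[ℝ] ℝ,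
        IsAmpleClass (lattice b) E ∧
        (∃ B : EffQDiv (lattice b), NumEquiv B E) ∧
        ((2 : ℕ) : ℝ) ^ 2 < selfInt b E ∧ N < selfInt b E ∧
        ∀ D : EffQDiv (lattice b), NumEquiv D E →
          ∀ W : Submodule ℂ (Fin 2 → ℂ), CosupportIs D W →
            0 < Module.finrank ℂ W ∧ ¬ Splits (lattice b) E := by
  refine ⟨pb, fun N => ?_⟩
  obtain ⟨k, hk⟩ := exists_nat_gt (max (2 * N) 8)
  have hk1 : 2 * N < k := lt_of_le_of_lt (le_max_left _ _) hk
  have hk2 : (8 : ℝ) < k := lt_of_le_of_lt (le_max_right _ _) hk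
  have hk0 : (0 : ℝ) < k := by linarith
  have hself : selfInt pb (form (1/2) k) = (1/2) * k := form_selfInt (1/2) k (by norm_num) hk0
  have hample : IsAmpleClass (lattice pb) (form (1/2) k) := by
    have := form_ample (1/2) k (by norm_num) (by exact_mod_cast hk0)
    simpa using this
  refine ⟨form (1/2) k, hample, exists_eff k, ?_, ?_, ?_⟩
  · rw [hself]; norm_num; linarith
  · rw [hself]; linarith
  · intro D hD W hW
    refine ⟨?_, not_splits _⟩
    have hne := not_point D hD W hW
    have : Module.finrank ℂ W ≠ 0 := fun h => hne (Submodule.finrank_eq_zero.1 h)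
    omega

end Pool.Agent.Results.MP_c52a38_ag.NonSplitSurface
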